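import Mathlib
import Pool.Agent.Lib.MP_f02ea4_nt.MlF

/-! Large primes of an odd perfect number, the form with the number `k` of the prime factors `≤ y`
instead of `y`. -/

set_option autoImplicit false

namespace Pool.Agent.Lib.MP_f02ea4_nt.Ml

open Finset Real Sm

/-- `process_light` with `k = #{p ∣ N : p ≤ y}` -/
theorem process_lightK (N y j t k : ℕ) (Z : ℝ) (hodd : Odd N) (hN : Nat.Perfect N) (hy : 2 ≤ y)
    (hZ : 0 ≤ Z) (hk : (N.primeFactors.filter (fun p => p ≤ y)).card ≤ k)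
    (hj : (N.primeFactors.filter (y < ·)).card ≤ j)
    (ht : (N.primeFactors.filter (fun p => p ≤ y ∧ Z < nn N p * log (p : ℝ))).card ≤ t) :
    log N ≤ 2 ^ (2 * j + t) * (k * log y + k * Z + log (4 * N.primeFactors.card)) := by
  classical
  set LL : Finset ℕ := N.primeFactors.filter (fun p => p ≤ y) with hLLdef
  set J : Finset ℕ := N.primeFactors.filter (fun p => p ≤ y ∧ ¬ Z < nn N p * log (p : ℝ)) with hJdef
  have hLL : LL ⊆ N.primeFactors := Finset.filter_subset _ _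
  have hJ : J ⊆ LL := by
    intro p hp
    rw [hJdef, Finset.mem_filter] at hp
    rw [hLLdef, Finset.mem_filter]
    exact ⟨hp.1, hp.2.1⟩
  have hc1 : LL.card + (N.primeFactors.filter (y < ·)).card = N.primeFactors.card := by
    have h := Finset.card_filter_add_card_filter_not (s := N.primeFactors) (fun p => p ≤ y)
    have e : N.primeFactors.filter (fun p => ¬ p ≤ y) = N.primeFactors.filter (y < ·) := by
      apply Finset.filter_congr
      intro p _
      exact not_le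
    rw [e] at h
    exact h
  have hc2 : J.card + (N.primeFactors.filter (fun p => p ≤ y ∧ Z < nn N p * log (p : ℝ))).card =
      LL.card := by
    have h := Finset.card_filter_add_card_filter_not (s := LL)
      (fun p : ℕ => ¬ Z < nn N p * log (p : ℝ))
    have e1 : LL.filter (fun p : ℕ => ¬ Z < nn N p * log (p : ℝ)) = J := by
      rw [hLLdef, Finset.filter_filter]
    have e2 : LL.filter (fun p : ℕ => ¬ ¬ Z < nn N p * log (p : ℝ)) =
        N.primeFactors.filter (fun p => p ≤ y ∧ Z < nn N p * log (p : ℝ)) := by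
      rw [hLLdef, Finset.filter_filter]
      apply Finset.filter_congr
      intro p _
      simp only [not_not]
    rw [e1, e2] at h
    exact h
  have hk2 : 2 * N.primeFactors.card ≤ LL.card + J.card + (2 * j + t) := by omega
  have h0 := process N hodd hN LL J hLL hJ (2 * j + t) hk2
  have hy1 : (1 : ℝ) ≤ (y : ℝ) := by exact_mod_cast (by omega : 1 ≤ y)
  have hcJ : J.card ≤ k := (Finset.card_le_card hJ).trans hk
  have hcLL' : (LL.card : ℝ) ≤ k := by exact_mod_cast hk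
  have hcJ' : (J.card : ℝ) ≤ k := by exact_mod_cast hcJ
  have h1 : ∑ p ∈ LL, log (p : ℝ) ≤ k * log y := by
    have h2 : ∑ p ∈ LL, log (p : ℝ) ≤ LL.card • log (y : ℝ) := by
      apply Finset.sum_le_card_nsmul
      intro p hp
      rw [hLLdef, Finset.mem_filter] at hp
      apply Real.log_le_log
      · exact_mod_cast (Nat.prime_of_mem_primeFactors hp.1).pos
      · exact_mod_cast hp.2
    rw [nsmul_eq_mul] at h2
    exact h2.trans (mul_le_mul_of_nonneg_right hcLL' (Real.log_nonneg hy1))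
  have h3 : ∑ p ∈ J, (nn N p : ℝ) * log p ≤ k * Z := by
    have h2 : ∑ p ∈ J, (nn N p : ℝ) * log (p : ℝ) ≤ J.card • Z := by
      apply Finset.sum_le_card_nsmul
      intro p hp
      rw [hJdef, Finset.mem_filter] at hp
      exact not_lt.1 hp.2.2
    rw [nsmul_eq_mul] at h2
    exact h2.trans (mul_le_mul_of_nonneg_right hcJ' hZ)
  refine h0.trans ?_
  apply mul_le_mul_of_nonneg_left _ (by positivity)
  unfold HH
  linarith

/-- the number of the prime factors at most `y` is at most `y` -/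
lemma small_card_le (N y : ℕ) : (N.primeFactors.filter (fun p => p ≤ y)).card ≤ y := by
  have h1 : N.primeFactors.filter (fun p => p ≤ y) ⊆ Finset.Icc 1 y := by
    intro p hp
    rw [Finset.mem_filter] at hp
    rw [Finset.mem_Icc]
    exact ⟨(Nat.prime_of_mem_primeFactors hp.1).one_lt.le, hp.2⟩
  have h2 := Finset.card_le_card h1
  simpa using h2

/-- F7 with `k` -/
theorem main_ineqK (η : ℝ) (hη : 0 < η) (hη1 : η ≤ 1 / 2) (M : ℕ) (hM : 1 ≤ M) :
    ∃ K : ℕ, 1 ≤ K ∧ ∀ N y : ℕ, Odd N → Nat.Perfect N → 3 ≤ y → (y : ℝ) ≤ log N →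
      ((Lg N y).card + 1 : ℝ) ≤ 1 + log (log N) →
      log N ≤ (log N) ^ ((1 : ℝ) / M) *
        ((((N.primeFactors.filter (fun p => p ≤ y)).card : ℝ) + 1) * (y : ℝ) ^ (1 + 2 * η)) *
        (K * (1 + log (log N))) ^ (K * ((Lg N y).card + 1)) := by
  obtain ⟨C1, hC1, hF1⟩ := heavy_card η hη
  obtain ⟨K1, hK1, hF4⟩ := w_bound η hη C1 hC1
  obtain ⟨K2, hK2, hF5⟩ := Y_bound η hη hη1 M hM K1 hK1
  obtain ⟨K, hK, hF6⟩ := size_bound η hη M hM K1 K2 hK1 hK2
  refine ⟨K, hK, fun N y hodd hN hy hyX hj => ?_⟩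
  obtain ⟨hX1, hV3, hom, hom1⟩ := basics N hodd hN
  set X : ℝ := log (N : ℝ) with hX
  set j : ℕ := (Lg N y).card with hjdef
  set k : ℕ := (N.primeFactors.filter (fun p => p ≤ y)).card with hkdef
  set V : ℕ := Nat.log 2 N + 1 with hV
  set t : ℕ := (M + 1) * (j + 1) with ht
  have hV1 : 1 ≤ V := by omega
  have ht1 : 1 ≤ t := by
    rw [ht]
    exact Nat.mul_pos (by omega) (by omega)
  have htV : 1 ≤ t * V := Nat.mul_pos ht1 hV1
  obtain ⟨Cm, hCm1, hCmM, hCm2⟩ := exists_root (t * V) M htV hM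
  set w : ℝ := K1 * (y : ℝ) ^ (1 + 2 * η) * (1 + log X) with hw
  have hlogX : 0 ≤ log X := Real.log_nonneg hX1
  have hy1 : (1 : ℝ) ≤ y := by exact_mod_cast (by omega : 1 ≤ y)
  have hy3 : (3 : ℝ) ≤ y := by exact_mod_cast hy
  have hy0 : (0 : ℝ) < y := by linarith
  have hypow : (1 : ℝ) ≤ (y : ℝ) ^ (1 + 2 * η) := Real.one_le_rpow hy1 (by linarith)
  have hcoef : (1 : ℝ) ≤ K1 * (y : ℝ) ^ (1 + 2 * η) := by nlinarith
  have hw1 : 1 + log X ≤ w := by
    rw [hw]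
    nlinarith
  have hlogy : 1 ≤ log (y : ℝ) := by
    rw [Real.le_log_iff_exp_le hy0]
    have := Real.exp_one_lt_d9
    linarith
  have hlogyX : log (y : ℝ) ≤ log X := Real.log_le_log hy0 hyX
  set E : ℕ := ⌈log (y : ℝ)⌉₊ with hE
  have hE1 : log (y : ℝ) ≤ E := Nat.le_ceil _
  have hE2 : (E : ℝ) < log (y : ℝ) + 1 := Nat.ceil_lt_add_one (by linarith)
  have hE3 : (E : ℝ) ≤ 1 + log X := by linarith
  have hE4 : (E : ℝ) ≤ w := hE3.trans hw1
  have hE5 : 1 ≤ E := by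
    have h1 : (1 : ℝ) ≤ E := hlogy.trans hE1
    exact_mod_cast h1
  have hjr : ((j : ℝ) + 1) ≤ 1 + log X := hj
  have h4 := hF4 X y j V hX1 hy hyX hjr hV1 hV3
  obtain ⟨Bb, Y, hY1, hBb, hYl, hY2⟩ := hF5 X y j t V Cm w hX1 hy hyX hjr ht hV1 hV3 hCm1 hCm2 hw
  have h1 := hF1 N y M t V Cm E Y Bb w hodd hN hy hM ht hV hCm1 hCmM h4 hE1 hE4 hE5 hY1 hBb hYl
  have hw0 : 0 ≤ w := by linarith
  have hZ : 0 ≤ ZZ t Cm E Y w := by
    unfold ZZ
    positivity
  have hpR : (1 : ℝ) ≤ (pR t E Y : ℝ) := by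
    have h0 : 1 ≤ pR t E Y := by
      unfold pR
      exact Nat.mul_pos (Nat.mul_pos (Nat.mul_pos (by norm_num) ht1) hE5) hY1
    exact_mod_cast h0
  have hZw : 2 * w ≤ ZZ t Cm E Y w := by
    unfold ZZ
    have e1 : (1 : ℝ) ≤ (t : ℝ) * Cm := by
      have : 1 ≤ t * Cm := Nat.mul_pos ht1 hCm1
      exact_mod_cast this
    have e2 : (1 : ℝ) ≤ (pR t E Y : ℝ) ^ (32 * t + 64) := one_le_pow₀ hpR
    have e3 : w ≤ t * Cm * w := le_mul_of_one_le_left hw0 e1
    have e4 : (t : ℝ) * Cm * w ≤ t * Cm * w * (pR t E Y : ℝ) ^ (32 * t + 64) :=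
      le_mul_of_one_le_right (by positivity) e2
    linarith
  have h5 := process_lightK N y j t k (ZZ t Cm E Y w) hodd hN (by omega) hZ le_rfl le_rfl h1.le
  have h6 := hF6 X y j t V Cm E Y w hX1 hy hyX hjr ht hV1 hV3 hCm1 hCm2 hw hE3 hY2
  have hlog4 : log (4 * (N.primeFactors.card : ℝ)) ≤ log (4 * X) := by
    have h7 : (0 : ℝ) < N.primeFactors.card := by exact_mod_cast hom1
    exact Real.log_le_log (by positivity) (by linarith)
  have hlog4X : log (4 * X) ≤ ZZ t Cm E Y w := by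
    have e1 : log (4 * X) = log 4 + log X := Real.log_mul (by norm_num) (by linarith)
    have e2 : log (4 : ℝ) ≤ 2 := by
      have h8 : log (4 : ℝ) = 2 * log 2 := by
        rw [show (4 : ℝ) = 2 ^ 2 by norm_num, Real.log_pow]
        norm_num
      have h9 := Real.log_two_lt_d9
      rw [h8]
      linarith
    rw [e1]
    linarith
  have hly0 : 0 ≤ log (y : ℝ) := by linarith
  have hk0 : (0 : ℝ) ≤ (k : ℝ) := Nat.cast_nonneg _
  obtain ⟨Z, hZdef⟩ : ∃ Z, Z = ZZ t Cm E Y w := ⟨_, rfl⟩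
  rw [← hZdef] at h5 h6 hlog4X hZ
  obtain ⟨T, hT⟩ : ∃ T : ℝ, T = 2 ^ (2 * j + t) := ⟨_, rfl⟩
  have hT0 : 0 < T := by rw [hT]; positivity
  rw [← hT] at h5 h6
  obtain ⟨U, hU⟩ : ∃ U : ℝ, U = (K * (1 + log X)) ^ (K * (j + 1)) := ⟨_, rfl⟩
  rw [← hU] at h6 ⊢
  -- divide by `y`
  have hlogX4 : 0 ≤ log (4 * X) := Real.log_nonneg (by linarith)
  have h7 : T * (log y + Z) ≤ X ^ ((1 : ℝ) / M) * (y : ℝ) ^ (1 + 2 * η) * U := by
    have e1 : (y : ℝ) * (T * (log y + Z)) ≤ X ^ ((1 : ℝ) / M) * (y : ℝ) ^ (2 + 2 * η) * U := by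
      refine le_trans ?_ h6
      have e2 : (y : ℝ) * (T * (log y + Z)) = T * (y * log y + y * Z) := by ring
      rw [e2]
      exact mul_le_mul_of_nonneg_left (by linarith) hT0.le
    have e3 : (y : ℝ) ^ (2 + 2 * η) = y * (y : ℝ) ^ (1 + 2 * η) := by
      rw [show (2 + 2 * η) = 1 + (1 + 2 * η) by ring, Real.rpow_add hy0, Real.rpow_one]
    rw [e3] at e1
    have e4 : X ^ ((1 : ℝ) / M) * (y * (y : ℝ) ^ (1 + 2 * η)) * U =
        y * (X ^ ((1 : ℝ) / M) * (y : ℝ) ^ (1 + 2 * η) * U) := by ring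
    rw [e4] at e1
    exact le_of_mul_le_mul_left e1 hy0
  calc X ≤ T * (k * log y + k * Z + log (4 * (N.primeFactors.card : ℝ))) := h5
    _ ≤ T * ((k + 1) * (log y + Z)) := by
        refine mul_le_mul_of_nonneg_left ?_ hT0.le
        have : (k + 1 : ℝ) * (log y + Z) = k * log y + k * Z + (log y + Z) := by ring
        rw [this]
        linarith
    _ = (k + 1) * (T * (log y + Z)) := by ring
    _ ≤ (k + 1) * (X ^ ((1 : ℝ) / M) * (y : ℝ) ^ (1 + 2 * η) * U) :=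
        mul_le_mul_of_nonneg_left h7 (by linarith)
    _ = X ^ ((1 : ℝ) / M) * ((k + 1) * (y : ℝ) ^ (1 + 2 * η)) * U := by ring

/-- solving for `X`, with an arbitrary factor `V ≥ 1` -/
lemma solveV (M K : ℕ) (hM : 4 ≤ M) (hK : 1 ≤ K) : ∃ C : ℕ, 1 ≤ C ∧ ∀ (X V : ℝ) (j : ℕ),
    1 ≤ X → 1 ≤ V → X ≤ X ^ ((1 : ℝ) / M) * V * (K * (1 + log X)) ^ (K * (j + 1)) →
    X ≤ C * V ^ ((M : ℝ) / (M - 2)) * (C * (1 + log X)) ^ (C * j) := by
  have hM0 : (4 : ℝ) ≤ M := by exact_mod_cast hM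
  obtain ⟨C₁, hC₁, habs⟩ := absorb_log K hK (1 / M) (by positivity)
  obtain ⟨p, hp⟩ : ∃ p, p = (M : ℝ) / (M - 2) := ⟨_, rfl⟩
  rw [← hp]
  have hM2 : (0 : ℝ) < M - 2 := by linarith
  have hp0 : 0 < p := by rw [hp]; exact div_pos (by linarith) hM2
  have hp2 : p ≤ 2 := by
    rw [hp, div_le_iff₀ hM2]
    linarith
  have hp1 : (1 - 2 / (M : ℝ)) * p = 1 := by
    rw [hp]
    have : (M : ℝ) ≠ 0 := by positivity
    field_simp
  refine ⟨max ⌈C₁ ^ 2⌉₊ (2 * K), le_trans (by omega) (le_max_right _ _), fun X V j hX hV1 h => ?_⟩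
  obtain ⟨C, hC⟩ : ∃ C : ℕ, C = max ⌈C₁ ^ 2⌉₊ (2 * K) := ⟨_, rfl⟩
  rw [← hC]
  have hCa : C₁ ^ 2 ≤ C := by
    rw [hC]
    exact (Nat.le_ceil _).trans (by exact_mod_cast le_max_left _ _)
  have hCb : 2 * K ≤ C := by
    rw [hC]
    exact le_max_right _ _
  have hX0 : 0 < X := by linarith
  have hl0 : 0 ≤ log X := Real.log_nonneg hX
  have hK1 : (1 : ℝ) ≤ K := by exact_mod_cast hK
  have hKl : 1 ≤ K * (1 + log X) := by nlinarith
  obtain ⟨U, hU⟩ : ∃ U, U = (K * (1 + log X)) ^ (K * j) := ⟨_, rfl⟩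
  have hU1 : 1 ≤ U := by rw [hU]; exact one_le_pow₀ hKl
  have hab := habs X hX
  have h1 : X ≤ X ^ (2 / (M : ℝ)) * (C₁ * V * U) := by
    have e1 : (K * (1 + log X)) ^ (K * (j + 1)) = U * (K * (1 + log X)) ^ K := by
      rw [hU, ← pow_add]
      congr 1
    rw [e1] at h
    have e2 : X ^ (2 / (M : ℝ)) = X ^ (1 / (M : ℝ)) * X ^ (1 / (M : ℝ)) := by
      rw [← Real.rpow_add hX0]
      congr 1
      ring
    have e3 : (0 : ℝ) ≤ X ^ (1 / (M : ℝ)) := Real.rpow_nonneg hX0.le _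
    calc X ≤ X ^ (1 / (M : ℝ)) * V * (U * (K * (1 + log X)) ^ K) := h
      _ ≤ X ^ (1 / (M : ℝ)) * V * (U * (C₁ * X ^ (1 / (M : ℝ)))) := by
          refine mul_le_mul_of_nonneg_left ?_ (by positivity)
          exact mul_le_mul_of_nonneg_left hab (by linarith)
      _ = X ^ (2 / (M : ℝ)) * (C₁ * V * U) := by rw [e2]; ring
  have h2 : X ^ (1 - 2 / (M : ℝ)) ≤ C₁ * V * U := by
    rw [Real.rpow_sub hX0, Real.rpow_one, div_le_iff₀ (Real.rpow_pos_of_pos hX0 _), mul_comm]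
    exact h1
  have h3 : X ≤ (C₁ * V * U) ^ p := by
    have e1 : (X ^ (1 - 2 / (M : ℝ))) ^ p = X := by
      rw [← Real.rpow_mul hX0.le, hp1, Real.rpow_one]
    calc X = (X ^ (1 - 2 / (M : ℝ))) ^ p := e1.symm
      _ ≤ (C₁ * V * U) ^ p := Real.rpow_le_rpow (Real.rpow_nonneg hX0.le _) h2 hp0.le
  have h4 : C₁ ^ p ≤ C := by
    calc C₁ ^ p ≤ C₁ ^ (2 : ℝ) := Real.rpow_le_rpow_of_exponent_le hC₁ hp2
      _ = C₁ ^ 2 := Real.rpow_two C₁
      _ ≤ C := hCa
  have h6 : U ^ p ≤ (C * (1 + log X)) ^ (C * j) := by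
    calc U ^ p ≤ U ^ (2 : ℝ) := Real.rpow_le_rpow_of_exponent_le hU1 hp2
      _ = (K * (1 + log X)) ^ (2 * K * j) := by
          rw [Real.rpow_two, hU, ← pow_mul]
          congr 1
          ring
      _ ≤ (C * (1 + log X)) ^ (2 * K * j) := by
          refine pow_le_pow_left₀ (by linarith) ?_ _
          refine mul_le_mul_of_nonneg_right ?_ (by linarith)
          exact_mod_cast (show K ≤ C by omega)
      _ ≤ (C * (1 + log X)) ^ (C * j) := by
          refine pow_le_pow_right₀ ?_ (Nat.mul_le_mul_right j hCb)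
          have : (1 : ℝ) ≤ C := by exact_mod_cast (show 1 ≤ C by omega)
          nlinarith
  calc X ≤ (C₁ * V * U) ^ p := h3
    _ = C₁ ^ p * V ^ p * U ^ p := by
        rw [Real.mul_rpow (by positivity) (by linarith), Real.mul_rpow (by linarith) (by linarith)]
    _ ≤ C * V ^ p * (C * (1 + log X)) ^ (C * j) := by
        refine mul_le_mul (mul_le_mul_of_nonneg_right h4 (by positivity)) h6 (by positivity)
          (by positivity)

/-- `((k + 1) y^(1 + 2 η))^p ≤ 2 (k + 1) y^(1 + ε)` for `k ≤ y`, `1 ≤ p ≤ 2`, `(2 + 2 η) p ≤ 2 + ε` -/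
lemma V_pow (ε η p : ℝ) (hη : 0 < η) (hp1 : 1 ≤ p) (hp2 : p ≤ 2) (hε : (2 + 2 * η) * p ≤ 2 + ε)
    (k y : ℕ) (hy : 1 ≤ y) (hk : k ≤ y) :
    (((k : ℝ) + 1) * (y : ℝ) ^ (1 + 2 * η)) ^ p ≤ 2 * (((k : ℝ) + 1) * (y : ℝ) ^ (1 + ε)) := by
  have hy1 : (1 : ℝ) ≤ y := by exact_mod_cast hy
  have hy0 : (0 : ℝ) < y := by linarith
  have hk0 : (0 : ℝ) < (k : ℝ) + 1 := by positivity
  have hk1 : (k : ℝ) + 1 ≤ 2 * y := by
    have : (k : ℝ) ≤ y := by exact_mod_cast hk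
    linarith
  rw [Real.mul_rpow hk0.le (by positivity), ← Real.rpow_mul hy0.le]
  have e1 : ((k : ℝ) + 1) ^ p = (k + 1) * (k + 1 : ℝ) ^ (p - 1) := by
    nth_rewrite 1 [show p = 1 + (p - 1) by ring]
    rw [Real.rpow_add hk0, Real.rpow_one]
  have e2 : (k + 1 : ℝ) ^ (p - 1) ≤ 2 * (y : ℝ) ^ (p - 1) := by
    calc (k + 1 : ℝ) ^ (p - 1) ≤ (2 * y : ℝ) ^ (p - 1) :=
          Real.rpow_le_rpow hk0.le hk1 (by linarith)
      _ = 2 ^ (p - 1) * (y : ℝ) ^ (p - 1) := Real.mul_rpow (by norm_num) hy0.le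
      _ ≤ 2 * (y : ℝ) ^ (p - 1) := by
          refine mul_le_mul_of_nonneg_right ?_ (by positivity)
          calc (2 : ℝ) ^ (p - 1) ≤ 2 ^ (1 : ℝ) :=
                Real.rpow_le_rpow_of_exponent_le (by norm_num) (by linarith)
            _ = 2 := Real.rpow_one _
  rw [e1]
  calc (k + 1 : ℝ) * (k + 1 : ℝ) ^ (p - 1) * (y : ℝ) ^ ((1 + 2 * η) * p)
      ≤ (k + 1 : ℝ) * (2 * (y : ℝ) ^ (p - 1)) * (y : ℝ) ^ ((1 + 2 * η) * p) := by
        refine mul_le_mul_of_nonneg_right ?_ (by positivity)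
        exact mul_le_mul_of_nonneg_left e2 hk0.le
    _ = 2 * ((k + 1) * (y : ℝ) ^ ((p - 1) + (1 + 2 * η) * p)) := by
        rw [Real.rpow_add hy0]
        ring
    _ ≤ 2 * ((k + 1) * (y : ℝ) ^ (1 + ε)) := by
        refine mul_le_mul_of_nonneg_left (mul_le_mul_of_nonneg_left ?_ hk0.le) (by norm_num)
        refine Real.rpow_le_rpow_of_exponent_le hy1 ?_
        linarith

private lemma F9_monoK (a b : ℕ) (ha : 1 ≤ a) (hab : a ≤ b) (u : ℝ) (hu : 1 ≤ u) (i j : ℕ)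
    (hij : i ≤ j) : ((a : ℝ) * u) ^ (a * i) ≤ ((b : ℝ) * u) ^ (b * j) := by
  have h1 : (1 : ℝ) ≤ a := by exact_mod_cast ha
  have h2 : (a : ℝ) ≤ b := by exact_mod_cast hab
  have h3 : 1 ≤ (b : ℝ) * u := by nlinarith
  calc ((a : ℝ) * u) ^ (a * i) ≤ ((b : ℝ) * u) ^ (a * i) :=
        pow_le_pow_left₀ (by positivity) (mul_le_mul_of_nonneg_right h2 (by linarith)) _
    _ ≤ ((b : ℝ) * u) ^ (b * j) := pow_le_pow_right₀ h3 (Nat.mul_le_mul hab hij)

/-- F9 with `k = #{p ∣ N : p ≤ y}`: `log N ≤ C (k + 1) y^(1 + ε) (C (1 + log log N))^(C j)`. -/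
theorem main_formK (ε : ℝ) (hε : 0 < ε) : ∃ C : ℕ, 1 ≤ C ∧ ∀ N y : ℕ, Odd N → Nat.Perfect N →
    2 ≤ y → log N ≤ C * ((((N.primeFactors.filter (fun p => p ≤ y)).card : ℝ) + 1) *
      (y : ℝ) ^ (1 + ε)) * (C * (1 + log (log N))) ^ (C * (Lg N y).card) := by
  obtain ⟨η, hη⟩ : ∃ η, η = min (ε / 4) (1 / 2) := ⟨_, rfl⟩
  have hη0 : 0 < η := by rw [hη]; exact lt_min (by linarith) (by norm_num)
  have hη1 : η ≤ 1 / 2 := by rw [hη]; exact min_le_right _ _
  have hη2 : η ≤ ε / 4 := by rw [hη]; exact min_le_left _ _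
  obtain ⟨M, hM⟩ : ∃ M, M = ⌈12 / ε⌉₊ + 4 := ⟨_, rfl⟩
  have hM4 : 4 ≤ M := by omega
  have hMr : 12 / ε + 4 ≤ (M : ℝ) := by
    rw [hM]
    push_cast
    have := Nat.le_ceil (12 / ε)
    linarith
  have hM2 : (0 : ℝ) < M - 2 := by
    have : 0 < 12 / ε := by positivity
    linarith
  have hM40 : (4 : ℝ) ≤ M := by exact_mod_cast hM4
  have hεM : (2 + 2 * η) * ((M : ℝ) / (M - 2)) ≤ 2 + ε := by
    have h1 : 12 / ε ≤ (M : ℝ) - 2 := by linarith
    have h2 : 12 ≤ ((M : ℝ) - 2) * ε := by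
      rwa [div_le_iff₀ hε] at h1
    rw [← mul_div_assoc, div_le_iff₀ hM2]
    nlinarith
  have hp1 : 1 ≤ (M : ℝ) / (M - 2) := by
    rw [le_div_iff₀ hM2]
    linarith
  have hp2 : (M : ℝ) / (M - 2) ≤ 2 := by
    rw [div_le_iff₀ hM2]
    linarith
  obtain ⟨K, hK, hmain⟩ := main_ineqK η hη0 hη1 M (by omega)
  obtain ⟨C₂, hC₂, hsolve⟩ := solveV M K hM4 hK
  -- the case `y ≥ 3`
  obtain ⟨D, hD⟩ : ∃ D : ℕ, D = max (2 * C₂) 4 := ⟨_, rfl⟩
  have hDa : 2 * C₂ ≤ D := by rw [hD]; exact le_max_left _ _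
  have hDb : 4 ≤ D := by rw [hD]; exact le_max_right _ _
  have hD4 : (4 : ℝ) ≤ D := by exact_mod_cast hDb
  have h3 : ∀ N y : ℕ, Odd N → Nat.Perfect N → 3 ≤ y →
      log N ≤ D * ((((N.primeFactors.filter (fun p => p ≤ y)).card : ℝ) + 1) *
        (y : ℝ) ^ (1 + ε)) * (D * (1 + log (log N))) ^ (D * (Lg N y).card) := by
    intro N y hodd hN hy
    have hX := (basics N hodd hN).1
    have hl0 : 0 ≤ log (log (N : ℝ)) := Real.log_nonneg hX
    have hy3 : (3 : ℝ) ≤ y := by exact_mod_cast hy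
    set k : ℕ := (N.primeFactors.filter (fun p => p ≤ y)).card with hk
    have hky : k ≤ y := small_card_le N y
    have hk0 : (0 : ℝ) ≤ (k : ℝ) := Nat.cast_nonneg _
    have hyp : (y : ℝ) ≤ (y : ℝ) ^ (1 + ε) := by
      calc (y : ℝ) = (y : ℝ) ^ (1 : ℝ) := (Real.rpow_one _).symm
        _ ≤ (y : ℝ) ^ (1 + ε) := Real.rpow_le_rpow_of_exponent_le (by linarith) (by linarith)
    have hypk : (y : ℝ) ≤ (k + 1) * (y : ℝ) ^ (1 + ε) := by
      have h0 : (0 : ℝ) ≤ (y : ℝ) ^ (1 + ε) := by positivity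
      nlinarith
    have hone : 1 ≤ (D * (1 + log (log (N : ℝ)))) ^ (D * (Lg N y).card) :=
      one_le_pow₀ (by nlinarith)
    rcases lt_or_ge (log (N : ℝ)) (y : ℝ) with h | h
    · have h4 : (y : ℝ) ≤ D * ((k + 1) * (y : ℝ) ^ (1 + ε)) := by nlinarith
      have h5 : D * (((k : ℝ) + 1) * (y : ℝ) ^ (1 + ε)) * 1 ≤
          D * ((k + 1) * (y : ℝ) ^ (1 + ε)) *
            (D * (1 + log (log (N : ℝ)))) ^ (D * (Lg N y).card) :=
        mul_le_mul_of_nonneg_left hone (by positivity)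
      linarith
    · rcases lt_or_ge (1 + log (log (N : ℝ))) ((Lg N y).card + 1 : ℝ) with h' | h'
      · -- many primes
        have h4 : log (log (N : ℝ)) ≤ (Lg N y).card := by linarith
        have h5 : log (N : ℝ) ≤ Real.exp ((Lg N y).card) := by
          rw [← Real.log_le_iff_le_exp (by linarith)]
          exact h4
        have h6 : Real.exp ((Lg N y).card : ℝ) ≤
            (D * (1 + log (log (N : ℝ)))) ^ (D * (Lg N y).card) := by
          have e1 : Real.exp ((Lg N y).card : ℝ) = Real.exp 1 ^ (Lg N y).card := by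
            rw [← Real.exp_nat_mul, mul_one]
          have e2 : Real.exp 1 ≤ D * (1 + log (log (N : ℝ))) := by
            have := Real.exp_one_lt_d9
            nlinarith
          rw [e1]
          refine (pow_le_pow_left₀ (Real.exp_pos 1).le e2 _).trans ?_
          refine pow_le_pow_right₀ (by nlinarith) ?_
          exact Nat.le_mul_of_pos_left _ (by omega)
        have h7 : (1 : ℝ) ≤ D * (((k : ℝ) + 1) * (y : ℝ) ^ (1 + ε)) := by nlinarith
        have h8 : (0 : ℝ) ≤ (D * (1 + log (log (N : ℝ)))) ^ (D * (Lg N y).card) := by positivity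
        nlinarith
      · have h4 := hmain N y hodd hN hy h h'
        have hy1 : (1 : ℝ) ≤ y := by linarith
        have hV1 : (1 : ℝ) ≤ ((k : ℝ) + 1) * (y : ℝ) ^ (1 + 2 * η) := by
          have e1 : (1 : ℝ) ≤ (y : ℝ) ^ (1 + 2 * η) := Real.one_le_rpow hy1 (by linarith)
          nlinarith
        have h5 := hsolve (log N) (((k : ℝ) + 1) * (y : ℝ) ^ (1 + 2 * η)) (Lg N y).card hX hV1 h4
        refine h5.trans ?_
        have h6 := F9_monoK C₂ D hC₂ (by omega) (1 + log (log (N : ℝ))) (by linarith) (Lg N y).card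
          (Lg N y).card le_rfl
        have h7 : (2 * C₂ : ℝ) ≤ D := by exact_mod_cast hDa
        have h9 := V_pow ε η ((M : ℝ) / (M - 2)) hη0 hp1 hp2 hεM k y (by omega) hky
        refine mul_le_mul ?_ h6 (by positivity) (by positivity)
        have hC20 : (0 : ℝ) ≤ C₂ := Nat.cast_nonneg _
        calc (C₂ : ℝ) * (((k : ℝ) + 1) * (y : ℝ) ^ (1 + 2 * η)) ^ ((M : ℝ) / (M - 2))
            ≤ C₂ * (2 * (((k : ℝ) + 1) * (y : ℝ) ^ (1 + ε))) := mul_le_mul_of_nonneg_left h9 hC20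
          _ = 2 * C₂ * (((k : ℝ) + 1) * (y : ℝ) ^ (1 + ε)) := by ring
          _ ≤ D * (((k : ℝ) + 1) * (y : ℝ) ^ (1 + ε)) :=
              mul_le_mul_of_nonneg_right h7 (by positivity)
  -- all `y`
  refine ⟨⌈D * (2 * (3 / 2 : ℝ) ^ (1 + ε))⌉₊ + D, by omega, fun N y hodd hN hy => ?_⟩
  obtain ⟨C, hC⟩ : ∃ C : ℕ, C = ⌈D * (2 * (3 / 2 : ℝ) ^ (1 + ε))⌉₊ + D := ⟨_, rfl⟩
  rw [← hC]
  have hCD : D ≤ C := by omega
  have hCr : D * (2 * (3 / 2 : ℝ) ^ (1 + ε)) ≤ C := by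
    rw [hC]
    push_cast
    have := Nat.le_ceil (D * (2 * (3 / 2 : ℝ) ^ (1 + ε)))
    linarith
  have hX := (basics N hodd hN).1
  have hl0 : 0 ≤ log (log (N : ℝ)) := Real.log_nonneg hX
  rcases Nat.lt_or_ge y 3 with h | h
  · have hy2 : y = 2 := by omega
    subst hy2
    have h4 := h3 N 3 hodd hN le_rfl
    have hsub : (Lg N 3).card ≤ (Lg N 2).card := by
      refine Finset.card_le_card fun p hp => ?_
      unfold Lg at hp ⊢
      rw [Finset.mem_filter] at hp ⊢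
      exact ⟨hp.1, by have := hp.2; omega⟩
    have h5 := F9_monoK D C (by omega) hCD (1 + log (log (N : ℝ))) (by linarith) (Lg N 3).card
      (Lg N 2).card hsub
    have hk3 : ((N.primeFactors.filter (fun p => p ≤ 3)).card : ℝ) + 1 ≤
        2 * (((N.primeFactors.filter (fun p => p ≤ 2)).card : ℝ) + 1) := by
      have e1 : N.primeFactors.filter (fun p => p ≤ 3) ⊆
          insert 3 (N.primeFactors.filter (fun p => p ≤ 2)) := by
        intro p hp
        rw [Finset.mem_filter] at hp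
        rw [Finset.mem_insert, Finset.mem_filter]
        rcases Nat.lt_or_ge 2 p with h' | h'
        · left
          omega
        · right
          exact ⟨hp.1, h'⟩
      have e2 := (Finset.card_le_card e1).trans (Finset.card_insert_le _ _)
      have e3 : ((N.primeFactors.filter (fun p => p ≤ 3)).card : ℝ) ≤
          ((N.primeFactors.filter (fun p => p ≤ 2)).card : ℝ) + 1 := by exact_mod_cast e2
      have e4 : (0 : ℝ) ≤ ((N.primeFactors.filter (fun p => p ≤ 2)).card : ℝ) := Nat.cast_nonneg _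
      linarith
    have h6 : D * ((((N.primeFactors.filter (fun p => p ≤ 3)).card : ℝ) + 1) *
          ((3 : ℕ) : ℝ) ^ (1 + ε)) ≤
        C * ((((N.primeFactors.filter (fun p => p ≤ 2)).card : ℝ) + 1) *
          ((2 : ℕ) : ℝ) ^ (1 + ε)) := by
      push_cast
      have e1 : (3 : ℝ) ^ (1 + ε) = (3 / 2 : ℝ) ^ (1 + ε) * (2 : ℝ) ^ (1 + ε) := by
        rw [← Real.mul_rpow (by norm_num) (by norm_num)]
        norm_num
      rw [e1]
      obtain ⟨k2, hk2⟩ : ∃ k2 : ℝ, k2 = ((N.primeFactors.filter (fun p => p ≤ 2)).card : ℝ) + 1 :=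
        ⟨_, rfl⟩
      rw [← hk2] at hk3 ⊢
      have hk20 : 0 ≤ k2 := by rw [hk2]; positivity
      have hD0 : (0 : ℝ) ≤ D := by linarith
      calc D * ((((N.primeFactors.filter (fun p => p ≤ 3)).card : ℝ) + 1) *
            ((3 / 2 : ℝ) ^ (1 + ε) * (2 : ℝ) ^ (1 + ε)))
          ≤ D * ((2 * k2) * ((3 / 2 : ℝ) ^ (1 + ε) * (2 : ℝ) ^ (1 + ε))) := by
            refine mul_le_mul_of_nonneg_left ?_ hD0
            exact mul_le_mul_of_nonneg_right hk3 (by positivity)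
        _ = D * (2 * (3 / 2 : ℝ) ^ (1 + ε)) * (k2 * (2 : ℝ) ^ (1 + ε)) := by ring
        _ ≤ C * (k2 * (2 : ℝ) ^ (1 + ε)) := mul_le_mul_of_nonneg_right hCr (by positivity)
    exact h4.trans (mul_le_mul h6 h5 (by positivity) (by positivity))
  · have h4 := h3 N y hodd hN h
    have h5 := F9_monoK D C (by omega) hCD (1 + log (log (N : ℝ))) (by linarith) (Lg N y).card
      (Lg N y).card le_rfl
    have h6 : (D : ℝ) * ((((N.primeFactors.filter (fun p => p ≤ y)).card : ℝ) + 1) *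
        (y : ℝ) ^ (1 + ε)) ≤ C * ((((N.primeFactors.filter (fun p => p ≤ y)).card : ℝ) + 1) *
        (y : ℝ) ^ (1 + ε)) :=
      mul_le_mul_of_nonneg_right (by exact_mod_cast hCD) (by positivity)
    exact h4.trans (mul_le_mul h6 h5 (by positivity) (by positivity))

end Pool.Agent.Lib.MP_f02ea4_nt.Ml
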